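import Pool.Graph.R_pool_sql_team_seeded_63374d34.N170.PF.Tw
import Pool.Graph.R_pool_sql_team_seeded_63374d34.N99.PF.Main

/-!
# Project AG (helper458), part SCG (helper231): scaling of polynomials, generalities
-/

set_option autoImplicit false
set_option linter.all false

open Polynomial Matrix IsDedekindDomain NumberField
open scoped Classical

namespace Pool.Agent.H231.AG458

open Pool.Agent.N783.PF (Bd Cg sp rd Ht GoodS LBad Weak dsc fF IsGen SelZero)

theorem irr_sc {R : Type} [CommRing R] (hR : IsField R) {p : R[X]} {D : R} (hD : D ≠ 0) :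
    Irreducible (p.scaleRoots D) ↔ Irreducible p := by
  letI := hR.toField
  constructor
  · intro h
    have h1 := Pool.Agent.N170.PF.irr_scale (K := R) (D := D⁻¹) (inv_ne_zero hD) h
    rwa [← scaleRoots_mul, mul_inv_cancel₀ hD, scaleRoots_one] at h1
  · exact fun h => Pool.Agent.N170.PF.irr_scale hD h

theorem der_sc {R : Type} [CommRing R] (f : R[X]) (c : R) {n : ℕ} (h : f.natDegree = n + 1)
    (h' : (derivative f).natDegree = n) :
    derivative (f.scaleRoots c) = (derivative f).scaleRoots c := by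
  ext j
  rw [coeff_derivative, coeff_scaleRoots, coeff_scaleRoots, coeff_derivative, h, h',
    Nat.add_sub_add_right]
  ring

theorem divX_sc {R : Type} [CommRing R] (f : R[X]) (c : R) :
    (f.scaleRoots c).divX = f.divX.scaleRoots c := by
  ext j
  rw [coeff_divX, coeff_scaleRoots, coeff_scaleRoots, coeff_divX, natDegree_divX_eq_natDegree_tsub_one]
  congr 2
  omega

variable {F : Type} [Field F] [NumberField F]

theorem rd_sc (𝔭 : Ideal (𝓞 F)) [𝔭.IsPrime] {f : (𝓞 F)[X]} (hm : f.Monic) (c : 𝓞 F) :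
    rd 𝔭 (f.scaleRoots c) = (rd 𝔭 f).scaleRoots (Ideal.Quotient.mk 𝔭 c) := by
  rw [rd, map_scaleRoots]
  rw [hm.leadingCoeff, map_one]
  exact one_ne_zero

theorem fld {𝔭 : Ideal (𝓞 F)} (h𝔭 : 𝔭.IsPrime) {q : ℕ} (hq : q.Prime) (h : (q : 𝓞 F) ∈ 𝔭) :
    IsField (𝓞 F ⧸ 𝔭) := by
  have h0 : 𝔭 ≠ ⊥ := by
    rintro rfl
    rw [Ideal.mem_bot] at h
    exact hq.ne_zero (by exact_mod_cast h)
  haveI := h𝔭.isMaximal h0
  exact (Ideal.Quotient.maximal_ideal_iff_isField_quotient 𝔭).1 this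

theorem not_mem {𝔭 : Ideal (𝓞 F)} (h𝔭 : 𝔭.IsPrime) {q c : ℕ} (hq : q.Prime) (h : (q : 𝓞 F) ∈ 𝔭)
    (hqc : ¬ q ∣ c) : (c : 𝓞 F) ∉ 𝔭 := by
  intro hc
  have hcop : IsCoprime (q : ℤ) (c : ℤ) := by
    rw [Nat.isCoprime_iff_coprime]
    exact (Nat.Prime.coprime_iff_not_dvd hq).2 hqc
  obtain ⟨a, b, hab⟩ := hcop
  apply h𝔭.ne_top
  rw [Ideal.eq_top_iff_one]
  have h1 : (1 : 𝓞 F) = (a : 𝓞 F) * (q : 𝓞 F) + (b : 𝓞 F) * (c : 𝓞 F) := by
    have := congrArg (fun z : ℤ => (z : 𝓞 F)) hab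
    push_cast at this
    exact this.symm
  rw [h1]
  exact Ideal.add_mem _ (Ideal.mul_mem_left _ _ h) (Ideal.mul_mem_left _ _ hc)

theorem dsc_sc {g : ℕ} {f : (𝓞 F)[X]} (hd : f.natDegree = 2 * g + 1) (c : 𝓞 F) :
    dsc g (f.scaleRoots c) = c ^ ((2 * g + 1) * (2 * g)) * dsc g f := by
  have hd' : (derivative f).natDegree = 2 * g := by
    rw [natDegree_derivative, hd]
    rfl
  have h := resultant_scaleRoots f (derivative f) c
  rw [natDegree_scaleRoots, natDegree_scaleRoots, hd, hd', ← der_sc f c hd hd'] at h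
  exact h

end Pool.Agent.H231.AG458
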