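import Pool.Agent.H458.AG.Def
import Pool.Agent.H231.AG458.Sc0

/-!
# Project AG (helper458), part SCG (helper231): good primes and scaling
-/

set_option autoImplicit false
set_option linter.all false

open Polynomial Matrix IsDedekindDomain NumberField
open scoped Classical

namespace Pool.Agent.H231.AG458

open Pool.Agent.N783.PF (Bd Cg sp rd Ht GoodS LBad Weak dsc fF IsGen SelZero)
open Pool.Agent.H458.AG (Pol Gq S_SCG)

variable {F : Type} [Field F] [NumberField F]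

theorem pol_sc {g : ℕ} {f : (𝓞 F)[X]} (h : Pol g f) (c : 𝓞 F) : Pol g (f.scaleRoots c) where
  mon := by rw [monic_scaleRoots_iff]; exact h.mon
  deg := by rw [natDegree_scaleRoots, h.deg]
  tr := by rw [coeff_scaleRoots, h.tr, zero_mul]

theorem gq_sc {g q : ℕ} {𝔮 : Ideal (𝓞 F)} {c : ℕ} {f : (𝓞 F)[X]} (hf : Pol g f) (hq : q.Prime)
    (hqc : ¬ q ∣ c) (h𝔮 : 𝔮.IsPrime) (hq𝔮 : (q : 𝓞 F) ∈ 𝔮) :
    Gq q 𝔮 (f.scaleRoots (c : 𝓞 F)) ↔ Gq q 𝔮 f := by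
  have hc : ∀ 𝔭 : Ideal (𝓞 F), 𝔭.IsPrime → (q : 𝓞 F) ∈ 𝔭 → Ideal.Quotient.mk 𝔭 (c : 𝓞 F) ≠ 0 :=
    fun 𝔭 h1 h2 h3 => not_mem h1 hq h2 hqc (Ideal.Quotient.eq_zero_iff_mem.1 h3)
  have hirr : ∀ (𝔭 : Ideal (𝓞 F)), 𝔭.IsPrime → (q : 𝓞 F) ∈ 𝔭 → ∀ p : (𝓞 F)[X], p.Monic →
      (Irreducible (rd 𝔭 (p.scaleRoots (c : 𝓞 F))) ↔ Irreducible (rd 𝔭 p)) := by
    intro 𝔭 h1 h2 p hp
    haveI := h1
    rw [rd_sc 𝔭 hp, irr_sc (fld h1 hq h2) (hc 𝔭 h1 h2)]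
  have hdivX : f.divX.Monic := by
    rw [Monic, leadingCoeff, natDegree_divX_eq_natDegree_tsub_one, coeff_divX, hf.deg,
      Nat.add_sub_cancel, ← hf.deg]
    exact hf.mon
  unfold Gq
  refine and_congr ?_ (and_congr ?_ ?_)
  · rw [coeff_scaleRoots]
    constructor
    · intro h
      rcases h𝔮.mem_or_mem h with h | h
      · exact h
      · exact absurd (h𝔮.mem_of_pow_mem _ h) (not_mem h𝔮 hq hq𝔮 hqc)
    · exact fun h => Ideal.mul_mem_right _ _ h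
  · rw [divX_sc, hirr 𝔮 h𝔮 hq𝔮 _ hdivX]
  · constructor
    · intro h 𝔭 h1 h2 h3
      exact (hirr 𝔭 h1 h2 f hf.mon).1 (h 𝔭 h1 h2 h3)
    · intro h 𝔭 h1 h2 h3
      exact (hirr 𝔭 h1 h2 f hf.mon).2 (h 𝔭 h1 h2 h3)

/-- Good primes and scaling. -/
theorem scg : S_SCG := by
  intro F _ _ g hg c f hc hf
  refine ⟨pol_sc hf _, ?_, ?_, ?_, ?_, ?_⟩
  · intro B hB
    exact Pool.Agent.N99.PF.ht_scale hB (le_of_eq (mul_comm _ _))
  · intro q 𝔮 hq hqc h𝔮 hq𝔮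
    exact gq_sc hf hq hqc h𝔮 hq𝔮
  · intro v hv h
    rw [dsc_sc hf.deg] at h
    haveI := v.isPrime
    rcases Ideal.IsPrime.mul_mem_pow v.asIdeal h with h | h
    · exact absurd (v.isPrime.mem_of_pow_mem _ h) hv
    · exact h
  · rintro v hv ⟨x, hx1, hx2⟩
    refine ⟨(c : 𝓞 F) * x, ?_, ?_⟩
    · rw [scaleRoots_eval_mul]
      exact Ideal.mul_mem_left _ _ hx1
    · have hd' : (derivative f).natDegree = 2 * g := by
        rw [natDegree_derivative, hf.deg]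
        rfl
      rw [der_sc f _ hf.deg hd', scaleRoots_eval_mul]
      exact Ideal.mul_mem_left _ _ hx2
  · intro h
    rw [Pool.Agent.N170.PF.fF_scale hf.mon]
    exact Pool.Agent.N170.PF.irr_scale (Nat.cast_ne_zero.2 hc.ne') h

end Pool.Agent.H231.AG458
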